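import Pool.Agent.W8.LS.Stm

/-!
Project LS (helper8): the orbit relation is an equivalence relation.
-/

open Complex (I)

namespace Pool.Agent.W428.LS.RelEquiv

open Pool.Agent.W8.LS

theorem ext4 {P Q : V} (h1 : P.1 = Q.1) (h2 : P.2.1 = Q.2.1) (h3 : P.2.2.1 = Q.2.2.1)
    (h4 : P.2.2.2 = Q.2.2.2) : P = Q :=
  Prod.ext h1 (Prod.ext h2 (Prod.ext h3 h4))

theorem act_id (P : V) : act 1 0 0 0 0 0 0 P = P := by
  apply ext4 <;> simp [act]

theorem act_act (e₁ k₁ l₁ a₁ n₁ m₁ r₁ e₂ k₂ l₂ a₂ n₂ m₂ r₂ : ℤ) (h₁ : e₁ = 1 ∨ e₁ = -1) (P : V) :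
    act e₂ k₂ l₂ a₂ n₂ m₂ r₂ (act e₁ k₁ l₁ a₁ n₁ m₁ r₁ P) =
      act (e₁ * e₂) (k₁ + e₁ * k₂) (l₁ + e₁ * l₂) (a₁ + a₂ - 2 * e₁ * k₂ * l₁) (n₁ + n₂)
        (m₁ + e₁ * m₂) (r₁ + e₁ * r₂ + e₁ * k₂ * n₁) P := by
  rcases h₁ with rfl | rfl
  · apply ext4
    · simp only [act]
      push_cast
      simp
      ring
    · simp only [act]
      push_cast
      ring
    · simp only [act]
      push_cast
      ring
    · simp only [act]
      push_cast
      ring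
  · apply ext4
    · simp only [act]
      push_cast
      simp
      ring
    · simp only [act]
      push_cast
      ring
    · simp only [act]
      push_cast
      ring
    · simp only [act]
      push_cast
      ring

theorem RelEquiv_proof : RelEquiv := by
  refine ⟨?_, ?_, ?_⟩
  · intro P
    exact ⟨1, 0, 0, 0, 0, 0, 0, Or.inl rfl, (act_id P).symm⟩
  · rintro P Q ⟨e, k, l, a, n, m, r, he, rfl⟩
    refine ⟨e, -(e * k), -(e * l), -a - 2 * k * l, -n, -(e * m), -(e * r) + e * k * n, he, ?_⟩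
    rw [act_act _ _ _ _ _ _ _ _ _ _ _ _ _ _ he]
    conv_lhs => rw [← act_id P]
    rcases he with rfl | rfl
    · congr 1 <;> ring
    · congr 1 <;> ring
  · rintro P Q S ⟨e₁, k₁, l₁, a₁, n₁, m₁, r₁, he₁, rfl⟩ ⟨e₂, k₂, l₂, a₂, n₂, m₂, r₂, he₂, rfl⟩
    refine ⟨_, _, _, _, _, _, _, ?_, act_act _ _ _ _ _ _ _ _ _ _ _ _ _ _ he₁ P⟩
    rcases he₁ with rfl | rfl <;> rcases he₂ with rfl | rfl <;> simp

end Pool.Agent.W428.LS.RelEquiv
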